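import Pool.Agent.H.MP_e38963_al.B

set_option autoImplicit false

namespace Pool.Agent.Results.MP_e38963_al.No

open Filter Topology

/-- unitary group -/
abbrev U (k : ℕ) : Type := Matrix.unitaryGroup (Fin k) ℂ

/-- operator norm -/
noncomputable def opNorm {k : ℕ} (A : Matrix (Fin k) (Fin k) ℂ) : ℝ :=
  ‖Matrix.toEuclideanCLM (𝕜 := ℂ) A‖

/-- operator norm distance of unitary matrices -/
noncomputable def d {k : ℕ} (a b : U k) : ℝ := opNorm (a.val - b.val)

/-- operator norm stability -/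
def Stable (G : Type) [Group G] : Prop :=
  ∀ (k : ℕ → ℕ), (∀ n, 0 < k n) → ∀ φ : ∀ n, G → U (k n),
    (∀ g h, Tendsto (fun n => d (φ n (g * h)) (φ n g * φ n h)) atTop (𝓝 0)) →
    ∃ ψ : ∀ n, G →* U (k n), ∀ g, Tendsto (fun n => d (φ n g) (ψ n g)) atTop (𝓝 0)

theorem result :
    ∃ (H : Type) (_ : Group H) (G : Bool → Type) (_ : ∀ i, Group (G i)) (f : ∀ i, H →* G i),
      Infinite H ∧ (∀ i, Countable (G i)) ∧ (∀ i, Function.Injective (f i)) ∧
      (∀ i h, f i h ∈ Subgroup.center (G i)) ∧ (∀ i, Stable (G i)) ∧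
      ¬ Stable (Monoid.PushoutI f) :=
  ⟨Pool.Agent.H.MP_e38963_al.Z, inferInstance, fun _ => Pool.Agent.H.MP_94dfa5_al.G,
    fun _ => inferInstance, Pool.Agent.H.MP_e38963_al.emb, inferInstance, fun _ => inferInstance,
    Pool.Agent.H.MP_e38963_al.emb_inj, Pool.Agent.H.MP_e38963_al.emb_central,
    fun _ => Pool.Agent.H.MP_e38963_al.G_ws.ms, Pool.Agent.H.MP_e38963_al.Am_not_ms⟩

end Pool.Agent.Results.MP_e38963_al.No
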